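import Pool.Agent.H873R3.BuckCorner

/-!
# Planar optimal sets for the buckling load under a perimeter constraint have no corners
-/

namespace Pool.Agent.Results.MP_f5a338_an.NoCorner

open Pool.Agent.H873R3 InnerProductSpace

/-- No boundary point of a planar optimal set has two distinct supporting lines: two unit
vectors `n₁`, `n₂` such that `Ω` lies in both half-planes `⟪nᵢ, y⟫ ≤ ⟪nᵢ, x⟫` through the
boundary point `x` coincide. Neither convexity nor boundedness of `Ω` is assumed. -/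
theorem result {p : ℝ} (hp : 0 < p) {Ω : Set (EuclideanSpace ℝ (Fin 2))}
    (hopt : IsOptimal p Ω) {x : EuclideanSpace ℝ (Fin 2)} (hx : x ∈ frontier Ω)
    {n₁ n₂ : EuclideanSpace ℝ (Fin 2)} (h₁ : ‖n₁‖ = 1) (h₂ : ‖n₂‖ = 1)
    (hs₁ : ∀ y ∈ Ω, ⟪n₁, y⟫_ℝ ≤ ⟪n₁, x⟫_ℝ) (hs₂ : ∀ y ∈ Ω, ⟪n₂, y⟫_ℝ ≤ ⟪n₂, x⟫_ℝ) :
    n₁ = n₂ :=
  unique_support hp hopt hx h₁ h₂ hs₁ hs₂

end Pool.Agent.Results.MP_f5a338_an.NoCorner
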